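import Pool.Agent.MP_ccae28_an.Quad

namespace Pool.Agent.Results.MP_ccae28_an.QuadraticBoundsLiouville

open Pool.Agent.MP_ccae28_an

/-- A plurisubharmonic solution `u` of class `C²` of the complex Monge-Ampere equation
`det (u_{i j̄}) = 1` on `ℂⁿ` with `c (1 + |z|²) ≤ u(z) ≤ C (1 + |z|²)` is a polynomial of degree at
most two in the real coordinates. -/
theorem result : ∀ n : ℕ, 1 ≤ n → ∀ u : Cn n → ℝ, IsPlurisubharmonic u →
    (∀ z, (complexHessian u z).det = 1) →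
    (∃ c C : ℝ, 0 < c ∧ c ≤ C ∧ ∀ z, c * (1 + ‖z‖ ^ 2) ≤ u z ∧ u z ≤ C * (1 + ‖z‖ ^ 2)) →
    IsQuadratic u := by
  rintro n hn u ⟨hu, hpsh⟩ hdet ⟨c, C, hc, hcC, hbd⟩
  have hn0 : 0 < n := hn
  have hs : IsSol u c C :=
    { hn := hn0
      hu := hu
      psh := hpsh
      hc := hc
      lower := fun z => (hbd z).1
      upper := fun z => (hbd z).2 }
  obtain ⟨T, hT1, hT2, hT3⟩ := exists_frame_map hu hpsh hdet
  have hT : IsFrame u T := ⟨hT1, hT2, hT3⟩
  obtain ⟨Λ, hΛ, hb⟩ := hs.exists_lev_bound hT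
  have hlev := lev_eq_slev hn0 hu hpsh hdet hT hΛ hb
  have hmv : MV u := mv_of_lev hu hlev
  have hgro : Gro 2 u := by
    refine ⟨C, hs.C_pos.le, fun z => ?_⟩
    rw [abs_of_pos (hs.u_pos z)]
    refine (hs.upper z).trans (mul_le_mul_of_nonneg_left ?_ hs.C_pos.le)
    nlinarith [norm_nonneg z]
  have hconst := D2_const_of_third hu (third_diff hu.continuous hmv hgro)
  exact isQuadratic_of_taylor (eq_taylor hu hconst)

end Pool.Agent.Results.MP_ccae28_an.QuadraticBoundsLiouville
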